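import Mathlib

set_option maxHeartbeats 400000

namespace Pool.Agent.Results.MP_1af0ac_pr.Comb

open Finset
open scoped ENNReal

noncomputable def P {W : Type} (ν : W → W → ℝ) (v w : W) : ℝ := ν v w / ∑' x, ν v x

noncomputable def c (j : ℤ) : ℝ := 1 / (3 * j ^ 2 + 3 * j + 1)

noncomputable def n (v w : ℤ × ℤ) : ℝ :=
  (if w = (v.1, v.2 + 1) then c v.2 else 0) + (if w = (v.1, v.2 - 1) then c (v.2 - 1) else 0) +
    (if w = (v.1 + 1, 0) then if v.2 = 0 then 1 else 0 else 0) +
    if w = (v.1 - 1, 0) then if v.2 = 0 then 1 else 0 else 0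

def G : SimpleGraph (ℤ × ℤ) where
  Adj v w := (w.1 = v.1 ∧ (w.2 = v.2 + 1 ∨ w.2 = v.2 - 1)) ∨
    (v.2 = 0 ∧ w.2 = 0 ∧ (w.1 = v.1 + 1 ∨ w.1 = v.1 - 1))
  symm := ⟨fun _ _ _ => by omega⟩
  loopless := ⟨fun _ _ => by omega⟩

lemma d_pos (j : ℤ) : (1 : ℝ) ≤ 3 * j ^ 2 + 3 * j + 1 := by
  have : 0 ≤ j * (j + 1) := by rcases show j ≤ -1 ∨ 0 ≤ j by omega with h | h <;> nlinarith
  have : (0 : ℝ) ≤ j * (j + 1) := by exact_mod_cast this
  nlinarith

lemma c_pos (j : ℤ) : 0 < c j := by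
  have := d_pos j
  unfold c
  positivity

lemma n_nonneg (v w : ℤ × ℤ) : 0 ≤ n v w := by
  have := c_pos v.2
  have := c_pos (v.2 - 1)
  unfold n
  positivity

noncomputable def m (j : ℤ) : ℝ := c j + c (j - 1) + if j = 0 then 2 else 0

lemma m_pos (j : ℤ) : 0 < m j := by
  have := c_pos j
  have := c_pos (j - 1)
  unfold m
  positivity

lemma sum_n (v : ℤ × ℤ) (f : ℤ × ℤ → ℝ) : HasSum (fun w => n v w * f w)
    (c v.2 * f (v.1, v.2 + 1) + c (v.2 - 1) * f (v.1, v.2 - 1) +
      (if v.2 = 0 then 1 else 0) * f (v.1 + 1, 0) + (if v.2 = 0 then 1 else 0) * f (v.1 - 1, 0)) := by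
  have k : ∀ (a : ℤ × ℤ) (r : ℝ), HasSum (fun w => (if w = a then r else 0) * f w) (r * f a) :=
    fun a r => by
      convert hasSum_ite_eq a (r * f a) using 2 with w
      split_ifs with h <;> simp [h]
  simpa only [n, add_mul] using (((k _ _).add (k _ _)).add (k _ _)).add (k _ _)

lemma tot (v : ℤ × ℤ) : ∑' x, n v x = m v.2 := by
  have := (sum_n v 1).tsum_eq
  simp only [Pi.one_apply, mul_one] at this
  rw [this, m]
  split_ifs <;> ring

lemma c_sum : Summable c := by
  refine .of_norm_bounded_eventually (Real.summable_one_div_int_pow.mpr one_lt_two) ?_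
  filter_upwards [(Set.finite_singleton 0).compl_mem_cofinite] with j hj
  have : (0 : ℝ) < j ^ 2 := by have : j ≠ 0 := hj; positivity
  rw [Real.norm_of_nonneg (c_pos j).le]
  refine one_div_le_one_div_of_le this ?_
  have : 0 ≤ (j + 1) * (2 * j + 1) := by
    rcases show j ≤ -1 ∨ 0 ≤ j by omega with h | h <;> nlinarith
  have : (0 : ℝ) ≤ (j + 1) * (2 * j + 1) := by exact_mod_cast this
  nlinarith

lemma m_sum : Summable m :=
  (c_sum.add (c_sum.comp_injective (sub_left_injective (b := 1)))).add (hasSum_ite_eq 0 2).summable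

noncomputable def wt (v : ℤ × ℤ) : ℝ≥0∞ := if v.1 = 0 then ENNReal.ofReal (m v.2 / ∑' j, m j) else 0

lemma tsum_wt (F : ℤ × ℤ → ℝ≥0∞) :
    ∑' v, wt v * F v = ∑' j, ENNReal.ofReal (m j / ∑' j, m j) * F (0, j) := by
  rw [ENNReal.tsum_prod', ENNReal.tsum_comm]
  simp [wt]

lemma M_pos : 0 < ∑' j, m j := m_sum.tsum_pos (fun j => (m_pos j).le) 0 (m_pos 0)

lemma wt_sum : ∑' v, wt v = 1 := by
  have := tsum_wt 1
  simp only [Pi.one_apply, mul_one] at this
  rw [this, ← ENNReal.ofReal_tsum_of_nonneg (fun j => (div_pos (m_pos j) M_pos).le)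
    (m_sum.div_const _), tsum_div_const, div_self M_pos.ne', ENNReal.ofReal_one]

lemma walk_le {v w : ℤ × ℤ} (p : G.Walk v w) :
    |w.1 - v.1| ≤ p.length ∧ |w.2 - v.2| ≤ p.length := by
  induction p with
  | nil => simp
  | cons h p ih =>
    simp only [G] at h
    simp only [abs_le, SimpleGraph.Walk.length_cons] at ih ⊢
    omega

lemma conn : G.Connected := by
  have h1 : ∀ x j, G.Reachable (x, 0) (x, j) := fun x j => by
    induction j using Int.induction_on with
    | zero => rfl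
    | succ j ih => exact ih.trans (SimpleGraph.Adj.reachable (by simp [G]))
    | pred j ih => exact ih.trans (SimpleGraph.Adj.reachable (by simp [G]))
  have h2 : ∀ x, G.Reachable (0, 0) (x, 0) := fun x => by
    induction x using Int.induction_on with
    | zero => rfl
    | succ j ih => exact ih.trans (SimpleGraph.Adj.reachable (by simp [G]))
    | pred j ih => exact ih.trans (SimpleGraph.Adj.reachable (by simp [G]))
  exact (SimpleGraph.connected_iff_exists_forall_reachable _).mpr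
    ⟨(0, 0), fun v => (h2 v.1).trans (h1 v.1 v.2)⟩

lemma ell {v w : ℤ × ℤ} (h : G.Adj v w) : 1 / 8 ≤ P n v w := by
  have h1 := d_pos v.2
  have h2 := d_pos (v.2 - 1)
  have h3 : c (v.2 - 1) ≤ 7 * c v.2 := by
    have : 0 ≤ (3 * v.2 - 1) * (v.2 - 1) := by
      rcases show v.2 ≤ 0 ∨ 1 ≤ v.2 by omega with h | h <;> nlinarith
    have : (0 : ℝ) ≤ (3 * v.2 - 1) * (v.2 - 1) := by exact_mod_cast this
    rw [c, c, mul_one_div, div_le_div_iff₀ (by linarith) (by linarith)]
    push_cast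
    nlinarith
  have h4 : c v.2 ≤ 7 * c (v.2 - 1) := by
    have : 0 ≤ (3 * v.2 + 1) * (v.2 + 1) := by
      rcases show v.2 ≤ -1 ∨ 0 ≤ v.2 by omega with h | h <;> nlinarith
    have : (0 : ℝ) ≤ (3 * v.2 + 1) * (v.2 + 1) := by exact_mod_cast this
    rw [c, c, mul_one_div, div_le_div_iff₀ (by linarith) (by linarith)]
    push_cast
    nlinarith
  have h5 : c 0 = 1 ∧ c (0 - 1) = 1 := by norm_num [c]
  rw [P, tot, le_div_iff₀ (m_pos _)]
  simp only [G] at h
  simp only [n, m, Prod.ext_iff]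
  grind

theorem result : ∃ (W : Type) (_ : Countable W) (Γ : SimpleGraph W) (ν : W → W → ℝ) (μ : PMF W),
    Γ.Connected ∧ (∀ v, (Γ.neighborSet v).encard ≤ 4) ∧ (∀ v w, ν v w = ν w v) ∧
    (∀ v w, Γ.Adj v w → 0 < ν v w) ∧ (∀ v w, ¬ Γ.Adj v w → ν v w = 0) ∧
    (∀ v w, Γ.Adj v w → 1 / 8 ≤ P ν v w) ∧
    (∀ F : W → ℝ≥0∞, (∀ φ : W ≃ W, (∀ x y, P ν (φ x) (φ y) = P ν x y) → ∀ x, F (φ x) = F x) →
      ∑' x, μ x * ∑' y, ENNReal.ofReal (P ν x y) * F y = ∑' x, μ x * F x) ∧
    (∀ ρ, ∀ r : ℕ, {y | Γ.dist ρ y ≤ r}.encard ≤ (2 * r + 1) ^ 2) ∧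
    ∃ h : ℤ → W → ℝ, LinearIndependent ℝ h ∧ ∀ i, (∀ x, HasSum (fun y => P ν x y * h i y) (h i x)) ∧
      ∀ ρ, ∃ C : ℝ, ∀ x, |h i x| ≤ C * (1 + Γ.dist ρ x) ^ 3 := by
  have hd : ∀ v w, |w.1 - v.1| ≤ G.dist v w ∧ |w.2 - v.2| ≤ G.dist v w := fun v w => by
    obtain ⟨p, hp⟩ := conn.exists_walk_length_eq_dist v w
    exact hp ▸ walk_le p
  refine ⟨ℤ × ℤ, inferInstance, G, n, ⟨wt, wt_sum ▸ ENNReal.summable.hasSum⟩, conn, fun v => ?_,
    fun v w => ?_, fun v w h => ?_, fun v w h => ?_, fun v w h => ?_, fun F hF => ?_, fun ρ r => ?_,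
    fun i v => if v.1 = i then v.2 ^ 3 else 0, ?_, fun i => ⟨fun x => ?_, fun ρ => ?_⟩⟩
  · refine (Set.encard_le_encard (t := ({(v.1, v.2 + 1), (v.1, v.2 - 1), (v.1 + 1, v.2),
      (v.1 - 1, v.2)} : Finset _)) fun w hw => ?_).trans ?_
    · simp only [G, SimpleGraph.mem_neighborSet] at hw
      simp only [mem_coe, mem_insert, mem_singleton, Prod.ext_iff]
      omega
    · rw [Set.encard_coe_eq_coe_finsetCard]
      exact_mod_cast card_le_four
  · simp only [n, Prod.ext_iff]
    grind (splits := 40)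
  · have := ell h
    rw [P, tot, le_div_iff₀ (m_pos _)] at this
    linarith [m_pos v.2]
  · simp only [G] at h
    simp only [n, Prod.ext_iff]
    grind
  · exact ell h
  · have h1 : ∀ x j, F (x, j) = F (0, j) := fun x j => by
      simpa using hF ((Equiv.addRight x).prodCongr (Equiv.refl _)) (fun a b => by
        rw [P, P, tot, tot]
        simp only [n, Prod.ext_iff, Equiv.prodCongr_apply, Prod.map_fst, Prod.map_snd,
          Equiv.coe_addRight, Equiv.coe_refl, id]
        congr 1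
        grind) (0, j)
    refine (tsum_wt _).trans (.trans ?_ (tsum_wt _).symm)
    have h2 : ∀ j, ENNReal.ofReal (m j / ∑' j, m j) * ∑' y, ENNReal.ofReal (P n (0, j) y) * F y =
        ENNReal.ofReal (c j / ∑' j, m j) * F (0, j + 1) +
        ENNReal.ofReal (c (j - 1) / ∑' j, m j) * F (0, j - 1) +
        ENNReal.ofReal ((if j = 0 then 2 else 0) / ∑' j, m j) * F (0, j) := fun j => by
      have h3 := M_pos
      have h4 := m_pos j
      have h5 := c_pos j
      have h6 := c_pos (j - 1)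
      rw [← ENNReal.tsum_mul_left, tsum_congr (g := fun y =>
        ENNReal.ofReal (n (0, j) y / ∑' j, m j) * F y) fun y => by
          rw [← mul_assoc, ← ENNReal.ofReal_mul (by positivity), P, tot]
          congr 2
          field_simp]
      simp (disch := positivity) only [n, add_div, ENNReal.ofReal_add, add_mul, ENNReal.tsum_add,
        apply_ite (· / ∑' j, m j), apply_ite ENNReal.ofReal, ite_mul, zero_div, ENNReal.ofReal_zero,
        zero_mul, tsum_ite_eq, h1 (0 + 1), h1 (0 - 1)]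
      split_ifs with h
      · rw [add_assoc, ← add_mul, ← ENNReal.ofReal_add (by positivity) (by positivity), h]
        congr 3
        ring
      · simp
    simp only [h2, ENNReal.tsum_add]
    rw [← (Equiv.subRight 1).tsum_eq, ← (Equiv.addRight 1).tsum_eq fun j =>
      ENNReal.ofReal (c (j - 1) / _) * F (0, j - 1), ← ENNReal.tsum_add, ← ENNReal.tsum_add]
    refine tsum_congr fun j => ?_
    have h3 := M_pos
    have h5 := c_pos j
    have h6 := c_pos (j - 1)
    simp only [Equiv.subRight_apply, Equiv.coe_addRight, sub_add_cancel, add_sub_cancel_right]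
    rw [← add_mul, ← add_mul, ← ENNReal.ofReal_add (by positivity) (by positivity),
      ← ENNReal.ofReal_add (by positivity) (by positivity), ← add_div, ← add_div, add_comm (c _)]
    rfl
  · refine (Set.encard_le_encard (t := (Icc (ρ.1 - r) (ρ.1 + r) ×ˢ Icc (ρ.2 - r) (ρ.2 + r) :
      Finset _)) fun w hw => ?_).trans ?_
    · have := hd ρ w
      simp only [Set.mem_ofPred_eq, mem_coe, mem_product, mem_Icc, abs_le] at this hw ⊢
      omega
    · rw [Set.encard_coe_eq_coe_finsetCard, card_product, Int.card_Icc, Int.card_Icc,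
        show (ρ.1 + r + 1 - (ρ.1 - r)).toNat = 2 * r + 1 by omega,
        show (ρ.2 + r + 1 - (ρ.2 - r)).toNat = 2 * r + 1 by omega, sq]
      simp
  · refine linearIndependent_iff'.mpr fun s g h i hi => ?_
    simpa [hi] using congrFun h (i, 1)
  · have h1 := (sum_n x fun v => if v.1 = i then v.2 ^ 3 else 0).div_const (m x.2)
    simp only [P, tot, div_mul_eq_mul_div]
    refine (congrArg (fun a : ℝ => HasSum _ a) ?_).mp h1
    have h2 := d_pos x.2
    have h3 := d_pos (x.2 - 1)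
    rw [div_eq_iff (m_pos _).ne', m, c, c]
    by_cases k : x.1 = i
    · by_cases k' : x.2 = 0
      · simp [k, k']
        norm_num
      · simp only [k, k', if_true, if_false]
        have e1 := one_div_mul_cancel (zero_lt_one.trans_le h2).ne'
        have e2 := one_div_mul_cancel (zero_lt_one.trans_le h3).ne'
        push_cast at e1 e2 ⊢
        linear_combination e1 - e2
    · simp [k]
  · refine ⟨(1 + |ρ.2|) ^ 3, fun x => ?_⟩
    have h1 : (|x.2 - ρ.2| : ℝ) ≤ G.dist ρ x := by exact_mod_cast (hd ρ x).2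
    rw [← mul_pow]
    refine le_trans (b := |(x.2 : ℝ)| ^ 3) (by by_cases k : x.1 = i <;> simp [k]) (pow_le_pow_left₀ (abs_nonneg _) ?_ 3)
    have h2 := abs_sub_abs_le_abs_sub (x.2 : ℝ) ρ.2
    push_cast
    nlinarith [abs_nonneg (ρ.2 : ℝ), (G.dist ρ x).cast_nonneg (α := ℝ)]

end Pool.Agent.Results.MP_1af0ac_pr.Comb
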